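import Mathlib
import Pool.Agent.U73.LC.Stm
import Pool.Agent.U73.LS.All
import Pool.Agent.U73.LR.Tl

set_option autoImplicit false

/-!
# Project LC (helper73), package TN (helper588): the uniform tail by the conductor, from the uniform tail in the regions

The pairs with `2 ^ j K ≤ r < 2 ^ (j + 1) K` and conductor at most `X` satisfy `|a³ - b²| ≤ 3456 * 2 ^ j K X`; geometric series.
-/

namespace Pool.Agent.U588.LC

open Finset Filter Topology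
open Pool.Agent.U73.LR Pool.Agent.U73.LS Pool.Agent.U73.LC

theorem cnt_le_sum (Z : ℝ) (P : ℤ → ℤ → Prop) (J : ℕ) (Q : ℕ → ℤ → ℤ → Prop)
    (h : ∀ a b : ℤ, (a, b) ∈ box Z → P a b → ∃ j < J, Q j a b) :
    cnt Z P ≤ ∑ j ∈ range J, cnt Z (Q j) := by
  classical
  rw [cnt_def]
  have h1 : (box Z).filter (fun q => P q.1 q.2) ⊆
      (range J).biUnion (fun j => (box Z).filter (fun q => Q j q.1 q.2)) := by
    intro q hq
    rw [mem_filter] at hq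
    obtain ⟨j, hj, hQ⟩ := h q.1 q.2 hq.1 hq.2
    exact mem_biUnion.2 ⟨j, mem_range.2 hj, mem_filter.2 ⟨hq.1, hQ⟩⟩
  have h2 := (card_le_card h1).trans card_biUnion_le
  calc _ ≤ ((∑ j ∈ range J, ((box Z).filter (fun q => Q j q.1 q.2)).card : ℕ) : ℝ) := by
        exact_mod_cast h2
    _ = _ := by
      push_cast
      exact sum_congr rfl fun j _ => (cnt_def Z (Q j)).symm

theorem t_TN : S_TY → S_TN := by
  intro hTY κ ε hκ1 hκ2 hε
  obtain ⟨e, he⟩ : ∃ e : ℝ, e = min (ε / 2) (1 / 12) := ⟨_, rfl⟩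
  have he0 : 0 < e := by rw [he]; exact lt_min (by linarith) (by norm_num)
  have he1 : e ≤ ε / 2 := by rw [he]; exact min_le_left _ _
  have he2 : e ≤ 1 / 12 := by rw [he]; exact min_le_right _ _
  obtain ⟨C, hC, hTY'⟩ := hTY e he0
  obtain ⟨q, hq⟩ : ∃ q : ℝ, q = (2 : ℝ) ^ (-(1 / 6) + e) := ⟨_, rfl⟩
  have hq0 : 0 < q := by rw [hq]; positivity
  have hq1 : q < 1 := by
    rw [hq]; exact Real.rpow_lt_one_of_one_lt_of_neg (by norm_num) (by linarith)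
  obtain ⟨A, hA⟩ : ∃ A : ℝ, A = (3456 : ℝ) ^ (5 / 6 : ℝ) := ⟨_, rfl⟩
  have hA0 : 0 < A := by rw [hA]; positivity
  have hlog2 : 0 < Real.log 2 := Real.log_pos (by norm_num)
  obtain ⟨B, hB⟩ : ∃ B : ℝ, B = 6 / (e * Real.log 2) + 1 := ⟨_, rfl⟩
  have hB0 : 0 < B := by rw [hB]; positivity
  have h1q : 0 < 1 - q := by linarith
  refine ⟨C * (A / (1 - q) + B), by positivity, fun X K hX hK => ?_⟩
  have hX0 : 0 < X := by linarith
  have hK0 : 0 < K := by linarith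
  obtain ⟨Z, hZ⟩ : ∃ Z : ℝ, Z = X ^ (κ / 6) := ⟨_, rfl⟩
  have hZ1 : 1 ≤ Z := by rw [hZ]; exact Real.one_le_rpow hX (by linarith)
  have hZ0 : 0 < Z := by linarith
  rw [← hZ]
  obtain ⟨J, hJ⟩ : ∃ J : ℕ, J = ⌊Real.logb 2 (Z ^ 6)⌋₊ + 1 := ⟨_, rfl⟩
  have hlogb : 0 ≤ Real.logb 2 (Z ^ 6) := Real.logb_nonneg (by norm_num) (one_le_pow₀ hZ1)
  have hJ1 : Z ^ 6 < 2 ^ J := by
    have h1 : Real.logb 2 (Z ^ 6) < J := by
      rw [hJ]; push_cast; exact Nat.lt_floor_add_one _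
    rw [Real.logb_lt_iff_lt_rpow (by norm_num) (by positivity), Real.rpow_natCast] at h1
    exact h1
  have hJ2 : (J : ℝ) ≤ B * Z ^ e := by
    have h1 : (J : ℝ) ≤ Real.logb 2 (Z ^ 6) + 1 := by
      rw [hJ]; push_cast
      linarith [Nat.floor_le hlogb]
    have h2 : Real.logb 2 (Z ^ 6) = 6 * Real.log Z / Real.log 2 := by
      rw [Real.logb, Real.log_pow]; push_cast; ring
    have h3 : Real.log Z ≤ Z ^ e / e := Real.log_le_rpow_div hZ0.le he0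
    have h4 : 1 ≤ Z ^ e := Real.one_le_rpow hZ1 he0.le
    rw [h2] at h1
    refine h1.trans ?_
    rw [hB, add_mul, one_mul]
    refine add_le_add ?_ h4
    calc 6 * Real.log Z / Real.log 2 ≤ 6 * (Z ^ e / e) / Real.log 2 := by gcongr
      _ = 6 / (e * Real.log 2) * Z ^ e := by field_simp
  obtain ⟨T, hT⟩ : ∃ T : ℕ → ℝ, T = fun j => (3456 * (2 ^ j * K) * X) ^ (((6 : ℕ) : ℝ)⁻¹) := ⟨_, rfl⟩
  have hy0 : ∀ j : ℕ, 0 < 3456 * (2 ^ j * K) * X := fun j => by positivity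
  have hy1 : ∀ j : ℕ, 1 ≤ 3456 * (2 ^ j * K) * X := by
    intro j
    have h1 : (1 : ℝ) ≤ 2 ^ j := one_le_pow₀ (by norm_num)
    have h2 : 1 ≤ 2 ^ j * K := one_le_mul_of_one_le_of_one_le h1 hK
    exact one_le_mul_of_one_le_of_one_le (one_le_mul_of_one_le_of_one_le (by norm_num) h2) hX
  have hT6 : ∀ j, T j ^ 6 = 3456 * (2 ^ j * K) * X := by
    intro j
    rw [hT]
    exact Real.rpow_inv_natCast_pow (hy0 j).le (by norm_num)
  have hT1 : ∀ j, 1 ≤ T j := by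
    intro j
    rw [hT]
    exact Real.one_le_rpow (hy1 j) (by positivity)
  have hT5 : ∀ j, T j ^ 5 * (2 ^ j * K) ^ (-1 + e) = A * X ^ (5 / 6 : ℝ) * K ^ (-(1 / 6) + e) * q ^ j := by
    intro j
    have h2j : (0 : ℝ) < 2 ^ j := by positivity
    have h1 : T j ^ 5 = A * (2 ^ j * K) ^ (5 / 6 : ℝ) * X ^ (5 / 6 : ℝ) := by
      rw [hT, hA]
      simp only
      rw [← Real.rpow_natCast, ← Real.rpow_mul (hy0 j).le]
      have e1 : (((6 : ℕ) : ℝ)⁻¹ * ((5 : ℕ) : ℝ)) = (5 / 6 : ℝ) := by norm_num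
      rw [e1, Real.mul_rpow (by positivity) hX0.le, Real.mul_rpow (by positivity) (by positivity)]
    have h2 : (2 ^ j * K) ^ (5 / 6 : ℝ) * (2 ^ j * K) ^ (-1 + e) = K ^ (-(1 / 6) + e) * q ^ j := by
      rw [← Real.rpow_add (by positivity)]
      have e1 : (5 / 6 : ℝ) + (-1 + e) = -(1 / 6) + e := by ring
      rw [e1, Real.mul_rpow h2j.le hK0.le, hq, ← Real.rpow_natCast (2 : ℝ) j, ← Real.rpow_mul (by norm_num),
        mul_comm ((j : ℕ) : ℝ) _, Real.rpow_mul (by norm_num), Real.rpow_natCast]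
      ring
    calc T j ^ 5 * (2 ^ j * K) ^ (-1 + e)
        = A * X ^ (5 / 6 : ℝ) * ((2 ^ j * K) ^ (5 / 6 : ℝ) * (2 ^ j * K) ^ (-1 + e)) := by rw [h1]; ring
      _ = _ := by rw [h2]; ring
  have hun : cnt Z (fun a b => Sm a b ∧ (Nz a b : ℝ) ≤ X ∧ K ≤ rs a b) ≤
      ∑ j ∈ range J, cnt Z (fun a b => Sm a b ∧ |(a : ℝ) ^ 3 - (b : ℝ) ^ 2| ≤ T j ^ 6 ∧ 2 ^ j * K ≤ rs a b) := by
    apply cnt_le_sum
    rintro a b hab ⟨hS, hN, hr⟩
    obtain ⟨f1, f2, f3, f4⟩ := fact.1 a b hS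
    have hab' := (mem_box Z (a, b)).1 hab
    simp only at hab'
    have hr1 : (1 : ℝ) ≤ (rs a b : ℝ) / K := by rw [le_div_iff₀ hK0]; linarith
    obtain ⟨j, hj1, hj2⟩ := exists_nat_pow_near hr1 (by norm_num : (1 : ℝ) < 2)
    rw [le_div_iff₀ hK0] at hj1
    rw [div_lt_iff₀ hK0] at hj2
    have g1 : |(a : ℝ) ^ 3 - (b : ℝ) ^ 2| = 1728 * ((rs a b : ℝ) * Nz a b) := by
      have h1 : ((a : ℝ) ^ 3 - (b : ℝ) ^ 2) = 1728 * ((Dz a b : ℤ) : ℝ) := by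
        exact_mod_cast f1.symm
      have h2 : |((Dz a b : ℤ) : ℝ)| = ((Dz a b).natAbs : ℝ) := by
        rw [Nat.cast_natAbs, Int.cast_abs]
      rw [h1, abs_mul, h2, f3]
      push_cast
      rw [abs_of_pos (by norm_num : (0 : ℝ) < 1728)]
    have hNpos : (1 : ℝ) ≤ Nz a b := by
      have : Nz a b ≠ 0 := by
        intro h0
        rw [h0, mul_zero] at f3
        exact f2 (Int.natAbs_eq_zero.1 f3)
      exact_mod_cast Nat.one_le_iff_ne_zero.2 this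
    have g2 : |(a : ℝ) ^ 3 - (b : ℝ) ^ 2| ≤ 2 * Z ^ 6 := by
      have h1 : |(a : ℝ) ^ 3| ≤ Z ^ 6 := by
        rw [abs_pow]
        calc |(a : ℝ)| ^ 3 ≤ (Z ^ 2) ^ 3 := by gcongr; exact hab'.1
          _ = Z ^ 6 := by ring
      have h2 : |(b : ℝ) ^ 2| ≤ Z ^ 6 := by
        rw [abs_pow]
        calc |(b : ℝ)| ^ 2 ≤ (Z ^ 3) ^ 2 := by gcongr; exact hab'.2
          _ = Z ^ 6 := by ring
      calc |(a : ℝ) ^ 3 - (b : ℝ) ^ 2| ≤ |(a : ℝ) ^ 3| + |(b : ℝ) ^ 2| := abs_sub _ _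
        _ ≤ 2 * Z ^ 6 := by linarith
    have hrpos : (0 : ℝ) < rs a b := by exact_mod_cast f4
    have g3 : (rs a b : ℝ) ≤ Z ^ 6 := by
      rw [g1] at g2
      nlinarith [mul_le_mul_of_nonneg_left hNpos hrpos.le]
    refine ⟨j, ?_, hS, ?_, hj1⟩
    · have h1 : (2 : ℝ) ^ j < 2 ^ J := by
        calc (2 : ℝ) ^ j ≤ 2 ^ j * K := le_mul_of_one_le_right (by positivity) hK
          _ ≤ _ := hj1
          _ ≤ _ := g3
          _ < _ := hJ1
      exact (pow_lt_pow_iff_right₀ (by norm_num : (1 : ℝ) < 2)).1 h1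
    · rw [g1, hT6]
      have h1 : (rs a b : ℝ) * Nz a b ≤ 2 ^ (j + 1) * K * X :=
        mul_le_mul hj2.le hN (by positivity) (by positivity)
      rw [pow_succ] at h1
      linarith
  have hgeo : ∑ j ∈ range J, q ^ j ≤ 1 / (1 - q) := by
    have h1 := (summable_geometric_of_lt_one hq0.le hq1).sum_le_tsum (range J) (fun i _ => by positivity)
    rw [tsum_geometric_of_lt_one hq0.le hq1] at h1
    rw [one_div]
    exact h1
  have hsum : ∑ j ∈ range J, cnt Z (fun a b => Sm a b ∧ |(a : ℝ) ^ 3 - (b : ℝ) ^ 2| ≤ T j ^ 6 ∧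
      2 ^ j * K ≤ rs a b) ≤ C * (A * X ^ (5 / 6 : ℝ) * K ^ (-(1 / 6) + e) * ∑ j ∈ range J, q ^ j) +
        C * (J * Z ^ (4 + e)) := by
    have h1 : ∀ j ∈ range J, cnt Z (fun a b => Sm a b ∧ |(a : ℝ) ^ 3 - (b : ℝ) ^ 2| ≤ T j ^ 6 ∧
        2 ^ j * K ≤ rs a b) ≤ C * (A * X ^ (5 / 6 : ℝ) * K ^ (-(1 / 6) + e) * q ^ j) + C * Z ^ (4 + e) := by
      intro j _
      have h2 := hTY' Z (T j) (2 ^ j * K) hZ1 (hT1 j)
        (one_le_mul_of_one_le_of_one_le (one_le_pow₀ (by norm_num)) hK)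
      rw [hT5 j, mul_add] at h2
      exact h2
    refine (sum_le_sum h1).trans (le_of_eq ?_)
    rw [sum_add_distrib, ← mul_sum, ← mul_sum, sum_const, card_range, nsmul_eq_mul]
    ring
  refine hun.trans (hsum.trans ?_)
  have hZe : (J : ℝ) * Z ^ (4 + e) ≤ B * X ^ (2 * κ / 3 + ε) := by
    calc (J : ℝ) * Z ^ (4 + e) ≤ B * Z ^ e * Z ^ (4 + e) := by gcongr
      _ = B * Z ^ (4 + 2 * e) := by
        rw [mul_assoc, ← Real.rpow_add hZ0]
        congr 2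
        ring
      _ = B * X ^ (κ / 6 * (4 + 2 * e)) := by rw [hZ, ← Real.rpow_mul hX0.le]
      _ ≤ B * X ^ (2 * κ / 3 + ε) := by
        apply mul_le_mul_of_nonneg_left _ hB0.le
        apply Real.rpow_le_rpow_of_exponent_le hX
        nlinarith
  have hKe : K ^ (-(1 / 6) + e) ≤ K ^ (-(1 / 6) + ε) := Real.rpow_le_rpow_of_exponent_le hK (by linarith)
  have hfirst : A * X ^ (5 / 6 : ℝ) * K ^ (-(1 / 6) + e) * ∑ j ∈ range J, q ^ j ≤
      A / (1 - q) * (X ^ (5 / 6 : ℝ) * K ^ (-(1 / 6) + ε)) := by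
    calc A * X ^ (5 / 6 : ℝ) * K ^ (-(1 / 6) + e) * ∑ j ∈ range J, q ^ j
        ≤ A * X ^ (5 / 6 : ℝ) * K ^ (-(1 / 6) + ε) * (1 / (1 - q)) := by gcongr
      _ = _ := by ring
  have hP1 : 0 ≤ X ^ (5 / 6 : ℝ) * K ^ (-(1 / 6) + ε) := by positivity
  have hP2 : 0 ≤ X ^ (2 * κ / 3 + ε) := by positivity
  have hAq : 0 < A / (1 - q) := by positivity
  rw [← mul_add, mul_assoc C (A / (1 - q) + B)]
  apply mul_le_mul_of_nonneg_left _ hC.le
  calc _ ≤ A / (1 - q) * (X ^ (5 / 6 : ℝ) * K ^ (-(1 / 6) + ε)) + B * X ^ (2 * κ / 3 + ε) :=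
        add_le_add hfirst hZe
    _ ≤ (A / (1 - q) + B) * (X ^ (5 / 6 : ℝ) * K ^ (-(1 / 6) + ε) + X ^ (2 * κ / 3 + ε)) := by
      nlinarith [mul_nonneg hAq.le hP2, mul_nonneg hB0.le hP1]

end Pool.Agent.U588.LC
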